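import Pool.Agent.PCS.Stmts

/-!
Squad PCS, row DSC: good descendants of a good ultrafilter.
-/

namespace Pool.Agent.PCS.H23

open Pool.Agent.PCS

/-- Row DSC: a good ultrafilter has good descendants. -/
theorem dsc (hC : ChdStmt) : DscStmt := by
  intro Γ V _ _ T S rk R K q hs U n hU k
  induction k with
  | zero =>
    refine ⟨U, n, hU, le_rfl, ?_, Filter.Eventually.of_forall (fun _ => Nat.zero_le _)⟩
    have h0 : T.par^[0] = id := rfl
    rw [h0, Ultrafilter.map_id]
  | succ k ih =>
    obtain ⟨U', n', hG, hn, hm, hl⟩ := ih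
    obtain ⟨i, n'', _, hG', h1, _⟩ := hC Γ V T S rk R K q hs U' n' hG
    refine ⟨U'.map (T.child i), n'', hG', hn.trans h1, ?_, ?_⟩
    · have h3 : T.par^[k + 1] ∘ T.child i = T.par^[k] := by
        funext v
        rw [Function.comp_apply, Function.iterate_succ_apply, T.par_child]
      rw [Ultrafilter.map_map, h3, hm]
    · rw [Ultrafilter.coe_map, Filter.eventually_map]
      filter_upwards [hl] with v hv
      rw [T.lv_child]
      omega

end Pool.Agent.PCS.H23
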